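import Pool.Agent.Q220.EAH.St

/-!
# Edwards–Anderson model: elementary facts on finite-volume Gibbs averages (task BASIC)
-/

set_option autoImplicit false

namespace Pool.Agent.Q220.EAH

open Pool.H47EA

namespace Basic

variable {d : ℕ}

theorem mem_nbr {x y : Site d} : y ∈ nbr x ↔ dist1 x y = 1 := by
  unfold nbr
  rw [Finset.mem_filter, Finset.mem_Icc]
  constructor
  · exact fun h => h.2
  · intro h
    have hi : ∀ i, (x i - y i).natAbs ≤ 1 := by
      intro i
      rw [← h]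
      unfold dist1
      exact Finset.single_le_sum (f := fun i => (x i - y i).natAbs) (fun _ _ => Nat.zero_le _)
        (Finset.mem_univ i)
    refine ⟨⟨fun i => ?_, fun i => ?_⟩, h⟩
    · have := hi i
      show x i - 1 ≤ y i
      omega
    · have := hi i
      show y i ≤ x i + 1
      omega

theorem dist1_comm (x y : Site d) : dist1 x y = dist1 y x := by
  unfold dist1
  apply Finset.sum_congr rfl
  intro i _
  rw [← Int.natAbs_neg, neg_sub]

theorem mem_edgesOf {Λ : Finset (Site d)} {e : Sym2 (Site d)} :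
    e ∈ edgesOf Λ ↔ ∃ x ∈ Λ, ∃ y, dist1 x y = 1 ∧ s(x, y) = e := by
  unfold edgesOf
  rw [Finset.mem_biUnion]
  constructor
  · rintro ⟨x, hx, h⟩
    rw [Finset.mem_image] at h
    obtain ⟨y, hy, h⟩ := h
    exact ⟨x, hx, y, mem_nbr.mp hy, h⟩
  · rintro ⟨x, hx, y, hy, h⟩
    refine ⟨x, hx, ?_⟩
    rw [Finset.mem_image]
    exact ⟨y, mem_nbr.mpr hy, h⟩

theorem bond_mk (J : Sys d) (σ : Site d → Bool) (x y : Site d) :
    bond J σ s(x, y) = Jc J x y * sg (σ x) * sg (σ y) := rfl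

theorem edgesOf_mono {Λ' Λ : Finset (Site d)} (h : Λ' ⊆ Λ) : edgesOf Λ' ⊆ edgesOf Λ := by
  intro e he
  rw [mem_edgesOf] at he ⊢
  obtain ⟨x, hx, y, hy, e1⟩ := he
  exact ⟨x, h hx, y, hy, e1⟩

theorem ham_diff (J : Sys d) {Λ' Λ : Finset (Site d)} (h : Λ' ⊆ Λ) (σ σ' : Site d → Bool)
    (hs : ∀ z, z ∉ Λ' → σ z = σ' z) :
    ham J Λ σ - ham J Λ' σ = ham J Λ σ' - ham J Λ' σ' := by
  unfold ham hamE
  have g1 := Finset.sum_sdiff (f := fun x => J.h x * sg (σ x)) h
  have g2 := Finset.sum_sdiff (f := fun x => J.h x * sg (σ' x)) h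
  have g3 : ∑ x ∈ Λ \ Λ', J.h x * sg (σ x) = ∑ x ∈ Λ \ Λ', J.h x * sg (σ' x) :=
    Finset.sum_congr rfl fun x hx => by rw [hs x (Finset.mem_sdiff.1 hx).2]
  have h1 := Finset.sum_sdiff (f := bond J σ) (edgesOf_mono h)
  have h2 := Finset.sum_sdiff (f := bond J σ') (edgesOf_mono h)
  have h3 : ∑ e ∈ edgesOf Λ \ edgesOf Λ', bond J σ e = ∑ e ∈ edgesOf Λ \ edgesOf Λ', bond J σ' e := by
    apply Finset.sum_congr rfl
    intro e he
    rw [Finset.mem_sdiff] at he
    obtain ⟨x, hx, y, hy, rfl⟩ := mem_edgesOf.mp he.1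
    have hx' : x ∉ Λ' := by
      intro hx'
      exact he.2 (mem_edgesOf.mpr ⟨x, hx', y, hy, rfl⟩)
    have hy' : y ∉ Λ' := by
      intro hy'
      exact he.2 (mem_edgesOf.mpr ⟨y, hy', x, by rw [dist1_comm]; exact hy, Sym2.eq_swap⟩)
    rw [bond_mk, bond_mk, hs x hx', hs y hy']
  linarith

theorem glue_mem {Λ : Finset (Site d)} (η : Λ → Bool) (ω : Site d → Bool) {x : Site d} (h : x ∈ Λ) :
    glue Λ η ω x = η ⟨x, h⟩ := by
  unfold glue
  rw [dif_pos h]

theorem glue_not_mem {Λ : Finset (Site d)} (η : Λ → Bool) (ω : Site d → Bool) {x : Site d}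
    (h : x ∉ Λ) : glue Λ η ω x = ω x := by
  unfold glue
  rw [dif_neg h]

theorem glue_congr {Λ : Finset (Site d)} (η : Λ → Bool) (ω ω' : Site d → Bool)
    (h : ∀ z, z ∉ Λ → ω z = ω' z) : glue Λ η ω = glue Λ η ω' := by
  funext z
  by_cases hz : z ∈ Λ
  · rw [glue_mem η ω hz, glue_mem η ω' hz]
  · rw [glue_not_mem η ω hz, glue_not_mem η ω' hz, h z hz]

theorem Zp_pos (β : ℝ) (J : Sys d) (Λ : Finset (Site d)) (ω : Site d → Bool) :
    0 < Zp β J Λ ω := by
  unfold Zp
  exact Finset.sum_pos (fun η _ => Real.exp_pos _) Finset.univ_nonempty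

theorem Zp_congr (β : ℝ) (J : Sys d) (Λ : Finset (Site d)) (ω ω' : Site d → Bool)
    (h : ∀ z, z ∉ Λ → ω z = ω' z) : Zp β J Λ ω = Zp β J Λ ω' := by
  unfold Zp
  apply Finset.sum_congr rfl
  intro η _
  rw [glue_congr η ω ω' h]

theorem gE_congr_out (β : ℝ) (J : Sys d) (Λ : Finset (Site d)) (ω ω' : Site d → Bool)
    (f : (Site d → Bool) → ℝ) (h : ∀ z, z ∉ Λ → ω z = ω' z) : gE β J Λ ω f = gE β J Λ ω' f := by
  unfold gE
  rw [Zp_congr β J Λ ω ω' h]
  congr 1
  apply Finset.sum_congr rfl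
  intro η _
  rw [glue_congr η ω ω' h]

theorem gE_congr (β : ℝ) (J : Sys d) (Λ : Finset (Site d)) (ω : Site d → Bool)
    (f f' : (Site d → Bool) → ℝ) (h : ∀ η : Λ → Bool, f (glue Λ η ω) = f' (glue Λ η ω)) :
    gE β J Λ ω f = gE β J Λ ω f' := by
  unfold gE
  congr 1
  apply Finset.sum_congr rfl
  intro η _
  rw [h η]

theorem gE_const (β : ℝ) (J : Sys d) (Λ : Finset (Site d)) (ω : Site d → Bool) (c : ℝ) :
    gE β J Λ ω (fun _ => c) = c := by
  unfold gE
  rw [← Finset.sum_mul]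
  exact mul_div_cancel_left₀ c (Zp_pos β J Λ ω).ne'

theorem gE_mono (β : ℝ) (J : Sys d) (Λ : Finset (Site d)) (ω : Site d → Bool)
    (f f' : (Site d → Bool) → ℝ) (h : ∀ η : Λ → Bool, f (glue Λ η ω) ≤ f' (glue Λ η ω)) :
    gE β J Λ ω f ≤ gE β J Λ ω f' := by
  unfold gE
  apply div_le_div_of_nonneg_right _ (Zp_pos β J Λ ω).le
  apply Finset.sum_le_sum
  intro η _
  exact mul_le_mul_of_nonneg_left (h η) (Real.exp_pos _).le

theorem gE_lin (β : ℝ) (J : Sys d) (Λ : Finset (Site d)) (ω : Site d → Bool)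
    (f f' : (Site d → Bool) → ℝ) (c c' : ℝ) :
    gE β J Λ ω (fun σ => c * f σ + c' * f' σ) = c * gE β J Λ ω f + c' * gE β J Λ ω f' := by
  unfold gE
  rw [← mul_div_assoc, ← mul_div_assoc, ← add_div, Finset.mul_sum, Finset.mul_sum,
    ← Finset.sum_add_distrib]
  congr 1
  apply Finset.sum_congr rfl
  intro η _
  ring

section consistency

variable {Λ Λ' : Finset (Site d)} (hsub : Λ' ⊆ Λ)

open Classical in
/-- replace the values on the smaller set -/
noncomputable def md (η : Λ → Bool) (η' : Λ' → Bool) : Λ → Bool :=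
  fun z => if h : z.1 ∈ Λ' then η' ⟨z.1, h⟩ else η z

/-- restriction to the smaller set -/
def rs (hsub : Λ' ⊆ Λ) (η : Λ → Bool) : Λ' → Bool := fun z => η ⟨z.1, hsub z.2⟩

theorem md_md (η : Λ → Bool) (η' : Λ' → Bool) : md (md η η') (rs hsub η) = η := by
  funext z
  unfold md rs
  by_cases h : z.1 ∈ Λ'
  · rw [dif_pos h]
  · rw [dif_neg h, dif_neg h]

theorem rs_md (η : Λ → Bool) (η' : Λ' → Bool) : rs hsub (md η η') = η' := by
  funext z
  show (if h : z.1 ∈ Λ' then η' ⟨z.1, h⟩ else _) = η' z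
  rw [dif_pos z.2]

/-- the involution of pairs -/
noncomputable def sw : Equiv.Perm ((Λ → Bool) × (Λ' → Bool)) :=
  Function.Involutive.toPerm (fun p => (md p.1 p.2, rs hsub p.1)) (by
    rintro ⟨η, η'⟩
    exact Prod.ext (md_md hsub η η') (rs_md hsub η η'))

include hsub in
theorem glue_md (η : Λ → Bool) (η' : Λ' → Bool) (ω : Site d → Bool) :
    glue Λ (md η η') ω = glue Λ' η' (glue Λ η ω) := by
  funext z
  by_cases hz' : z ∈ Λ'
  · have hz := hsub hz'
    rw [glue_mem _ _ hz, glue_mem _ _ hz']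
    unfold md
    rw [dif_pos hz']
  · rw [glue_not_mem _ _ hz']
    by_cases hz : z ∈ Λ
    · rw [glue_mem _ _ hz, glue_mem _ _ hz]
      unfold md
      rw [dif_neg hz']
    · rw [glue_not_mem _ _ hz, glue_not_mem _ _ hz]

theorem glue_rs (η : Λ → Bool) (η' : Λ' → Bool) (ω : Site d → Bool) :
    glue Λ' (rs hsub η) (glue Λ (md η η') ω) = glue Λ η ω := by
  rw [← glue_md hsub, md_md]

include hsub in
theorem gE_cons (β : ℝ) (J : Sys d) (ω : Site d → Bool) (f : (Site d → Bool) → ℝ) :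
    gE β J Λ ω f = gE β J Λ ω (fun τ => gE β J Λ' τ f) := by
  have key : ∑ η : Λ → Bool, Real.exp (β * ham J Λ (glue Λ η ω)) * f (glue Λ η ω) =
      ∑ η : Λ → Bool, Real.exp (β * ham J Λ (glue Λ η ω)) * gE β J Λ' (glue Λ η ω) f := by
    symm
    let H : (Λ → Bool) × (Λ' → Bool) → ℝ := fun p =>
      Real.exp (β * ham J Λ (glue Λ p.1 ω)) *
        (Real.exp (β * ham J Λ' (glue Λ' p.2 (glue Λ p.1 ω))) * f (glue Λ' p.2 (glue Λ p.1 ω))) /
          Zp β J Λ' (glue Λ p.1 ω)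
    have h1 : ∑ η : Λ → Bool, Real.exp (β * ham J Λ (glue Λ η ω)) * gE β J Λ' (glue Λ η ω) f =
        ∑ p : (Λ → Bool) × (Λ' → Bool), H p := by
      rw [Fintype.sum_prod_type]
      apply Finset.sum_congr rfl
      intro η _
      show Real.exp (β * ham J Λ (glue Λ η ω)) * ((∑ η' : Λ' → Bool, _) / _) = _
      rw [← mul_div_assoc, Finset.mul_sum, Finset.sum_div]
    rw [h1, ← Equiv.sum_comp (sw hsub) H, Fintype.sum_prod_type]
    apply Finset.sum_congr rfl
    intro η _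
    have h2 : ∀ η' : Λ' → Bool, H (sw hsub (η, η')) =
        Real.exp (β * ham J Λ (glue Λ η ω)) * f (glue Λ η ω) / Zp β J Λ' (glue Λ η ω) *
          Real.exp (β * ham J Λ' (glue Λ' η' (glue Λ η ω))) := by
      intro η'
      show Real.exp (β * ham J Λ (glue Λ (md η η') ω)) *
        (Real.exp (β * ham J Λ' (glue Λ' (rs hsub η) (glue Λ (md η η') ω))) *
          f (glue Λ' (rs hsub η) (glue Λ (md η η') ω))) /
          Zp β J Λ' (glue Λ (md η η') ω) = _
      rw [glue_rs, glue_md hsub]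
      have ho : ∀ z, z ∉ Λ' → glue Λ' η' (glue Λ η ω) z = glue Λ η ω z :=
        fun z hz => glue_not_mem _ _ hz
      rw [Zp_congr β J Λ' _ _ ho]
      have h3 := ham_diff J hsub _ _ ho
      have h4 : Real.exp (β * ham J Λ (glue Λ' η' (glue Λ η ω))) *
          Real.exp (β * ham J Λ' (glue Λ η ω)) =
          Real.exp (β * ham J Λ (glue Λ η ω)) *
            Real.exp (β * ham J Λ' (glue Λ' η' (glue Λ η ω))) := by
        rw [← Real.exp_add, ← Real.exp_add]
        congr 1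
        linear_combination β * h3
      rw [← mul_assoc, h4]
      ring
    rw [Finset.sum_congr rfl (fun η' _ => h2 η'), ← Finset.mul_sum]
    exact div_mul_cancel₀ _ (Zp_pos β J Λ' _).ne'
  show (∑ η : Λ → Bool, _) / _ = (∑ η : Λ → Bool, _) / _
  rw [key]

end consistency

theorem gE_cond (β : ℝ) (J : Sys d) (Λ : Finset (Site d)) (ω : Site d → Bool) (x : Site d)
    (hx : x ∈ Λ) (f : (Site d → Bool) → ℝ) :
    gE β J Λ ω f = gE β J Λ ω (ind x) * gE β J (Λ.erase x) (Function.update ω x true) f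
        + (1 - gE β J Λ ω (ind x)) * gE β J (Λ.erase x) (Function.update ω x false) f := by
  rw [gE_cons (Finset.erase_subset x Λ) β J ω f]
  set T := gE β J (Λ.erase x) (Function.update ω x true) f with hT
  set F := gE β J (Λ.erase x) (Function.update ω x false) f with hF
  have h1 : gE β J Λ ω (fun τ => gE β J (Λ.erase x) τ f) =
      gE β J Λ ω (fun σ => (T - F) * ind x σ + F * (fun _ => 1) σ) := by
    apply gE_congr
    intro η
    have h2 : gE β J (Λ.erase x) (glue Λ η ω) f =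
        gE β J (Λ.erase x) (Function.update ω x (glue Λ η ω x)) f := by
      apply gE_congr_out
      intro z hz
      by_cases hzx : z = x
      · rw [hzx, Function.update_self]
      · rw [Function.update_of_ne hzx]
        apply glue_not_mem
        intro h
        exact hz (Finset.mem_erase.mpr ⟨hzx, h⟩)
    rw [h2]
    unfold ind
    cases hs : glue Λ η ω x with
    | true =>
      rw [← hT]
      simp
    | false =>
      rw [← hF]
      simp
  rw [h1, gE_lin, gE_const]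
  ring

theorem gE_local (β : ℝ) (J : Sys d) (Λ : Finset (Site d)) (ω ω' : Site d → Bool)
    (f : (Site d → Bool) → ℝ)
    (h : ∀ y, y ∉ Λ → (∃ x ∈ Λ, (lat d).Adj x y) → ω y = ω' y)
    (hf : ∀ η : Λ → Bool, f (glue Λ η ω) = f (glue Λ η ω')) :
    gE β J Λ ω f = gE β J Λ ω' f := by
  have hh : ∀ η : Λ → Bool, ham J Λ (glue Λ η ω) = ham J Λ (glue Λ η ω') := by
    intro η
    unfold ham hamE
    congr 1
    swap
    · exact Finset.sum_congr rfl fun x hx => by rw [glue_mem _ _ hx, glue_mem _ _ hx]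
    apply Finset.sum_congr rfl
    intro e he
    obtain ⟨x, hx, y, hy, rfl⟩ := mem_edgesOf.mp he
    rw [bond_mk, bond_mk, glue_mem _ _ hx, glue_mem _ _ hx]
    by_cases hyΛ : y ∈ Λ
    · rw [glue_mem _ _ hyΛ, glue_mem _ _ hyΛ]
    · rw [glue_not_mem _ _ hyΛ, glue_not_mem _ _ hyΛ, h y hyΛ ⟨x, hx, hy⟩]
  unfold gE Zp
  rw [Finset.sum_congr rfl (fun η _ => show Real.exp (β * ham J Λ (glue Λ η ω)) =
      Real.exp (β * ham J Λ (glue Λ η ω')) by rw [hh η]),
    Finset.sum_congr rfl (fun η _ => show Real.exp (β * ham J Λ (glue Λ η ω)) * f (glue Λ η ω) =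
      Real.exp (β * ham J Λ (glue Λ η ω')) * f (glue Λ η ω') by rw [hh η, hf η])]

end Basic

theorem t_BASIC : St_BASIC := by
  intro d β J Λ ω
  refine ⟨?_, Basic.gE_const β J Λ ω, Basic.gE_mono β J Λ ω, Basic.gE_lin β J Λ ω,
    fun x hx f => Basic.gE_cond β J Λ ω x hx f, fun Λ' h f => Basic.gE_cons h β J ω f,
    fun ω' f h hf => Basic.gE_local β J Λ ω ω' f h hf⟩
  intro f hf
  constructor
  · have h1 := Basic.gE_mono β J Λ ω (fun _ => 0) f (fun η => (hf _).1)
    rw [Basic.gE_const] at h1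
    exact h1
  · have h1 := Basic.gE_mono β J Λ ω f (fun _ => 1) (fun η => (hf _).2)
    rw [Basic.gE_const] at h1
    exact h1

end Pool.Agent.Q220.EAH
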