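import Pool.Agent.H47R2.EA.Defs

/-!
# The Edwards–Anderson model with magnitudes and external fields: definitions
-/

set_option autoImplicit false

open MeasureTheory

namespace Pool.Agent.Q220.EAH

open Pool.H47EA (Site Coupling lat dist1 nbr ball edgesOf glue sg couplingLaw)

/-- A system of couplings and fields on `ℤ^d`: the signs `s e ∈ {1, -1}` and the magnitudes
`ρ e ∈ [0, 1]` of the couplings of the edges `e`, and the field `h x ∈ ℝ` at the sites `x`. -/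
structure Sys (d : ℕ) where
  s : Coupling d
  ρ : Sym2 (Site d) → ℝ
  h : Site d → ℝ
  nonneg : ∀ e, 0 ≤ ρ e
  le_one : ∀ e, ρ e ≤ 1

/-- The coupling `ρ_{⟨x,y⟩} s_{⟨x,y⟩}` if `x, y` are nearest neighbours, and `0` otherwise. -/
noncomputable def Jc {d : ℕ} (J : Sys d) (x y : Site d) : ℝ :=
  J.ρ s(x, y) * Pool.H47EA.Jc J.s x y

theorem Jc_comm {d : ℕ} (J : Sys d) (x y : Site d) : Jc J x y = Jc J y x := by
  unfold Jc
  rw [Pool.H47EA.Jc_comm J.s x y, Sym2.eq_swap]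

/-- The term `J_e σ_x σ_y` of the bond `e = ⟨x,y⟩`. -/
noncomputable def bond {d : ℕ} (J : Sys d) (σ : Site d → Bool) : Sym2 (Site d) → ℝ :=
  Sym2.lift ⟨fun x y => Jc J x y * sg (σ x) * sg (σ y), fun x y => by
    show Jc J x y * sg (σ x) * sg (σ y) = Jc J y x * sg (σ y) * sg (σ x)
    rw [Jc_comm J x y]; ring⟩

/-- `∑_{e = ⟨x,y⟩ : {x,y} ∩ Λ ≠ ∅} J_e σ_x σ_y`. -/
noncomputable def hamE {d : ℕ} (J : Sys d) (Λ : Finset (Site d)) (σ : Site d → Bool) : ℝ :=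
  ∑ e ∈ edgesOf Λ, bond J σ e

/-- `∑_{e = ⟨x,y⟩ : {x,y} ∩ Λ ≠ ∅} J_e σ_x σ_y + ∑_{x ∈ Λ} h_x σ_x`. -/
noncomputable def ham {d : ℕ} (J : Sys d) (Λ : Finset (Site d)) (σ : Site d → Bool) : ℝ :=
  hamE J Λ σ + ∑ x ∈ Λ, J.h x * sg (σ x)

/-- Partition function in `Λ` with boundary condition `ω`. -/
noncomputable def Zp {d : ℕ} (β : ℝ) (J : Sys d) (Λ : Finset (Site d))
    (ω : Site d → Bool) : ℝ :=
  ∑ η : Λ → Bool, Real.exp (β * ham J Λ (glue Λ η ω))

/-- The expectation `π^ω_{Λ,βJ}(f)` of `f` under the Edwards–Anderson measure in `Λ` with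
boundary condition `ω`. -/
noncomputable def gE {d : ℕ} (β : ℝ) (J : Sys d) (Λ : Finset (Site d))
    (ω : Site d → Bool) (f : (Site d → Bool) → ℝ) : ℝ :=
  (∑ η : Λ → Bool, Real.exp (β * ham J Λ (glue Λ η ω)) * f (glue Λ η ω)) / Zp β J Λ ω

/-- Gibbs states at `(β, J)`: probability measures satisfying the DLR equations for all finite
boxes `Λ = {x : a ≤ x ≤ b}`. -/
def IsGibbs {d : ℕ} (β : ℝ) (J : Sys d) (π : Measure (Site d → Bool)) : Prop :=
  IsProbabilityMeasure π ∧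
    ∀ (a b : Site d) (A : Set (Site d → Bool)), MeasurableSet A →
      (π A).toReal = ∫ ω, gE β J (Finset.Icc a b) ω (A.indicator fun _ => (1 : ℝ)) ∂π

end Pool.Agent.Q220.EAH
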