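import Pool.Agent.Q220.EAH.St

/-!
# EXPL: the exploration inequality (helper748)
-/

set_option autoImplicit false

open scoped ENNReal

namespace Pool.Agent.Q220.EAH

open Pool.H47EA

namespace ExplAux

/-! ### elementary facts on `dist1` -/

theorem dist_comm {d : ℕ} (x y : Site d) : dist1 x y = dist1 y x := by
  unfold dist1
  exact Finset.sum_congr rfl fun i _ => by rw [← Int.natAbs_neg, neg_sub]

theorem dist_self {d : ℕ} (x : Site d) : dist1 x x = 0 := by simp [dist1]

theorem dist_tri {d : ℕ} (x y z : Site d) : dist1 x z ≤ dist1 x y + dist1 y z := by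
  unfold dist1
  rw [← Finset.sum_add_distrib]
  refine Finset.sum_le_sum fun i _ => ?_
  have : x i - z i = (x i - y i) + (y i - z i) := by ring
  rw [this]
  exact Int.natAbs_add_le _ _

theorem mem_ball_dist {d : ℕ} {x y : Site d} {R : ℕ} (h : y ∈ ball x R) : dist1 x y ≤ R := by
  unfold ball at h
  exact (Finset.mem_filter.1 h).2

/-! ### chains -/

variable {d : ℕ}

/-- the chains counted in the exploration of `U` with present set `D` of disagreements -/
def Cnt (R' : ℕ) (A : Finset (Site d)) (U : Finset (Site d)) (D : Set (Site d))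
    (l : List (Site d)) : Prop :=
  IsCh R' A l ∧ (∀ x ∈ l, x ∈ U) ∧ (∀ x ∈ l, ∀ y ∈ D, R' + 1 ≤ dist1 x y) ∧
    (∃ x0 ∈ l.head?, ∃ y ∈ D, dist1 x0 y = R' + 1)

open Classical in
/-- the weight of the counted chains -/
noncomputable def S (R' : ℕ) (A : Finset (Site d)) (P : Site d → ℝ≥0∞) (U : Finset (Site d))
    (D : Set (Site d)) : ℝ≥0∞ :=
  ∑' l : List (Site d), if Cnt R' A U D l then (l.map P).prod else 0

open Classical in
/-- the weight of the counted chains starting with `x` (without the factor of `x`) -/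
noncomputable def Tx (R' : ℕ) (A : Finset (Site d)) (P : Site d → ℝ≥0∞) (U : Finset (Site d))
    (D : Set (Site d)) (x : Site d) : ℝ≥0∞ :=
  ∑' l : List (Site d), if Cnt R' A U D (x :: l) then (l.map P).prod else 0

open Classical in
theorem S_split (R' : ℕ) (A : Finset (Site d)) (P : Site d → ℝ≥0∞) (U : Finset (Site d))
    (D : Set (Site d)) (x : Site d) :
    S R' A P (U.erase x) D + P x * Tx R' A P U D x ≤ S R' A P U D := by
  have hinj : Function.Injective (fun l : List (Site d) => x :: l) := by
    intro l l' h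
    exact (List.cons.inj h).2
  set g : List (Site d) → ℝ≥0∞ := fun l =>
    if Cnt R' A U D l ∧ l.head? = some x then (l.map P).prod else 0 with hg
  have h1 : P x * Tx R' A P U D x = ∑' l, g l := by
    have h2 : ∑' l, g l = ∑' l : List (Site d), g (x :: l) := by
      refine (hinj.tsum_eq ?_).symm
      intro l hl
      simp only [hg, Function.mem_support, ne_eq, ite_eq_right_iff, Classical.not_imp] at hl
      cases l with
      | nil => simp at hl
      | cons y l =>
        have := hl.1.2
        simp only [List.head?_cons, Option.some.injEq] at this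
        exact ⟨l, by rw [this]⟩
    rw [h2, Tx, ← ENNReal.tsum_mul_left]
    refine tsum_congr fun l => ?_
    simp only [hg, List.head?_cons, and_true, List.map_cons, List.prod_cons]
    split_ifs <;> simp
  rw [h1]
  unfold S
  rw [← ENNReal.tsum_add]
  refine ENNReal.tsum_le_tsum fun l => ?_
  simp only [hg]
  by_cases hc : Cnt R' A (U.erase x) D l
  · have hc' : Cnt R' A U D l := ⟨hc.1, fun y hy => Finset.mem_of_mem_erase (hc.2.1 y hy), hc.2.2⟩
    have hne : ¬ (l.head? = some x) := by
      intro hh
      have : x ∈ l := List.mem_of_mem_head? hh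
      exact absurd (hc.2.1 x this) (Finset.notMem_erase x U)
    simp [hc, hc', hne]
  · by_cases hc' : Cnt R' A U D l
    · simp only [hc, hc', if_false, true_and, if_true, zero_add]
      split_ifs
      · exact le_rfl
      · exact zero_le
    · simp [hc, hc']

open Classical in
theorem S_insert (R' : ℕ) (A : Finset (Site d)) (P : Site d → ℝ≥0∞) (U : Finset (Site d))
    (D : Set (Site d)) (x : Site d) (hx : x ∈ U) (hxD : ∀ y ∈ D, R' + 1 ≤ dist1 x y)
    (hxD' : ∃ y ∈ D, dist1 x y = R' + 1) :
    S R' A P (U.erase x) (insert x D) ≤ S R' A P (U.erase x) D + Tx R' A P U D x := by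
  unfold S Tx
  rw [← ENNReal.tsum_add]
  refine ENNReal.tsum_le_tsum fun l => ?_
  by_cases hc : Cnt R' A (U.erase x) (insert x D) l
  · rw [if_pos hc]
    obtain ⟨h1, h2, h3, x0, hx0, y, hy, hxy⟩ := hc
    rcases hy with hy | hy
    · subst hy
      have hc2 : Cnt R' A U D (y :: l) := by
        cases l with
        | nil => simp at hx0
        | cons z l =>
          simp only [List.head?_cons, Option.mem_def, Option.some.injEq] at hx0
          subst hx0
          refine ⟨⟨?_, ?_, h1⟩, ?_, ?_, y, by simp, hxD'⟩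
          · rw [dist_comm]; exact hxy
          · intro w hw
            rw [dist_comm]
            exact h3 w hw y (Set.mem_insert _ _)
          · intro w hw
            rcases List.mem_cons.1 hw with hw | hw
            · rw [hw]; exact hx
            · exact Finset.mem_of_mem_erase (h2 w hw)
          · intro w hw v hv
            rcases List.mem_cons.1 hw with hw | hw
            · rw [hw]; exact hxD v hv
            · exact h3 w hw v (Set.mem_insert_of_mem _ hv)
      rw [if_pos hc2]
      exact le_add_self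
    · have hc1 : Cnt R' A (U.erase x) D l :=
        ⟨h1, h2, fun w hw v hv => h3 w hw v (Set.mem_insert_of_mem _ hv), x0, hx0, y, hy, hxy⟩
      rw [if_pos hc1]
      exact le_self_add
  · rw [if_neg hc]
    exact zero_le

open Classical in
theorem one_le_Tx (R' : ℕ) (A : Finset (Site d)) (P : Site d → ℝ≥0∞) (U : Finset (Site d))
    (D : Set (Site d)) (x : Site d) (hx : x ∈ U) (hxD : ∀ y ∈ D, R' + 1 ≤ dist1 x y)
    (hxD' : ∃ y ∈ D, dist1 x y = R' + 1) (hA : ∃ a ∈ A, dist1 a x ≤ R') :
    1 ≤ Tx R' A P U D x := by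
  unfold Tx
  refine le_trans ?_ (ENNReal.le_tsum [])
  have : Cnt R' A U D [x] := ⟨hA, by simpa using hx, by simpa using hxD, x, by simp, hxD'⟩
  rw [if_pos this]
  simp

/-- splitting of a difference of two mixtures -/
theorem mix (a a' F1 F2 G1 G2 : ℝ) (ha : 0 ≤ a ∧ a ≤ 1) (ha' : 0 ≤ a' ∧ a' ≤ 1) :
    ∃ b c : ℝ, 0 ≤ b ∧ 0 ≤ c ∧ b + c + |a - a'| = 1 ∧
      |(a * F1 + (1 - a) * F2) - (a' * G1 + (1 - a') * G2)| ≤
        b * |F1 - G1| + c * |F2 - G2| + |a - a'| * max |F1 - G2| |F2 - G1| := by
  rcases le_total a' a with h | h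
  · refine ⟨a', 1 - a, ha'.1, by linarith [ha.2], ?_, ?_⟩
    · rw [abs_of_nonneg (by linarith)]; ring
    · have e : (a * F1 + (1 - a) * F2) - (a' * G1 + (1 - a') * G2) =
          a' * (F1 - G1) + (1 - a) * (F2 - G2) + (a - a') * (F1 - G2) := by ring
      rw [e]
      refine (abs_add_three _ _ _).trans ?_
      rw [abs_mul, abs_mul, abs_mul, abs_of_nonneg ha'.1, abs_of_nonneg (by linarith [ha.2] : 0 ≤ 1 - a)]
      have := mul_le_mul_of_nonneg_left (le_max_left |F1 - G2| |F2 - G1|) (abs_nonneg (a - a'))
      linarith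
  · refine ⟨a, 1 - a', ha.1, by linarith [ha'.2], ?_, ?_⟩
    · rw [abs_of_nonpos (by linarith)]; ring
    · have e : (a * F1 + (1 - a) * F2) - (a' * G1 + (1 - a') * G2) =
          a * (F1 - G1) + (1 - a') * (F2 - G2) + (a' - a) * (F2 - G1) := by ring
      rw [e]
      refine (abs_add_three _ _ _).trans ?_
      rw [abs_mul, abs_mul, abs_mul, abs_of_nonneg ha.1, abs_of_nonneg (by linarith [ha'.2] : 0 ≤ 1 - a'),
        abs_sub_comm a' a]
      have := mul_le_mul_of_nonneg_left (le_max_right |F1 - G2| |F2 - G1|) (abs_nonneg (a - a'))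
      linarith

/-- no site of `U` at distance exactly `R' + 1` from `D`: no dependence on the boundary condition -/
theorem case_two (hb : St_BASIC) (R' : ℕ) (β : ℝ) (J : Sys d)
    (A : Finset (Site d)) (f : (Site d → Bool) → ℝ) (hfA : LocalOn A f)
    (U : Finset (Site d)) (D : Set (Site d)) (hA : ∀ a ∈ A, ∀ y ∈ D, R' + 1 ≤ dist1 a y)
    (ω ω' : Site d → Bool) (hω : ∀ y, y ∉ D → y ∉ U → ω y = ω' y)
    (hno : ¬ ∃ x ∈ U, (∀ y ∈ D, R' + 1 ≤ dist1 x y) ∧ ∃ y ∈ D, dist1 x y = R' + 1) :
    gE β J U ω f = gE β J U ω' f := by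
  classical
  set U' : Finset (Site d) := U.filter (fun y => ∀ z ∈ D, R' + 1 ≤ dist1 y z) with hU'
  have hsub : U' ⊆ U := Finset.filter_subset _ _
  -- sites with all distances at least `R' + 1`
  have hfar : ∀ y ∈ U', ∀ z ∈ D, R' + 2 ≤ dist1 y z := by
    intro y hy z hz
    rw [hU', Finset.mem_filter] at hy
    rcases Nat.lt_or_ge (dist1 y z) (R' + 2) with h | h
    · exact absurd ⟨y, hy.1, hy.2, z, hz, le_antisymm (by omega) (hy.2 z hz)⟩ hno
    · exact h
  have hnb : ∀ y, y ∉ U' → (∃ x ∈ U', (lat d).Adj x y) → y ∉ U ∧ y ∉ D := by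
    rintro y hy ⟨x, hx, hxy⟩
    have hxy' : dist1 x y = 1 := hxy
    have h1 : ∀ z ∈ D, R' + 1 ≤ dist1 y z := by
      intro z hz
      have := hfar x hx z hz
      have := dist_tri x y z
      omega
    refine ⟨fun hyU => hy (by rw [hU', Finset.mem_filter]; exact ⟨hyU, h1⟩), fun hyD => ?_⟩
    have := h1 y hyD
    rw [dist_self] at this
    omega
  have hAn : ∀ a ∈ A, a ∉ U' → a ∉ U ∧ a ∉ D := by
    intro a ha haU
    refine ⟨fun h => haU (by rw [hU', Finset.mem_filter]; exact ⟨h, hA a ha⟩), fun hyD => ?_⟩
    have := hA a ha a hyD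
    rw [dist_self] at this
    omega
  -- one configuration
  have hone : ∀ (τ : Site d → Bool), gE β J U τ f = gE β J U' τ f := by
    intro τ
    obtain ⟨-, b2, b3, -, -, b6, -⟩ := hb d β J U τ
    rw [b6 U' hsub f]
    have hconst : ∀ η : U → Bool, gE β J U' (glue U η τ) f = gE β J U' τ f := by
      intro η
      obtain ⟨-, -, -, -, -, -, b7⟩ := hb d β J U' (glue U η τ)
      refine b7 τ f ?_ ?_
      · intro y hy hadj
        have := (hnb y hy hadj).1
        simp [glue, this]
      · intro η'
        refine hfA _ _ fun a ha => ?_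
        by_cases haU : a ∈ U'
        · simp [glue, haU]
        · have := (hAn a ha haU).1
          simp [glue, haU, this]
    apply le_antisymm
    · calc gE β J U τ (fun τ' => gE β J U' τ' f) ≤ gE β J U τ (fun _ => gE β J U' τ f) :=
            b3 _ _ fun η => (hconst η).le
        _ = gE β J U' τ f := b2 _
    · calc gE β J U' τ f = gE β J U τ (fun _ => gE β J U' τ f) := (b2 _).symm
        _ ≤ gE β J U τ (fun τ' => gE β J U' τ' f) := b3 _ _ fun η => (hconst η).ge
  rw [hone ω, hone ω']
  obtain ⟨-, -, -, -, -, -, b7⟩ := hb d β J U' ω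
  refine b7 ω' f ?_ ?_
  · intro y hy hadj
    obtain ⟨h1, h2⟩ := hnb y hy hadj
    exact hω y h2 h1
  · intro η
    refine hfA _ _ fun a ha => ?_
    by_cases haU : a ∈ U'
    · simp [glue, haU]
    · obtain ⟨h1, h2⟩ := hAn a ha haU
      simp only [glue, haU, dif_neg, not_false_iff]
      exact hω a h2 h1

/-- the general claim -/
theorem claim (hb : St_BASIC) (R R' : ℕ) (hR : R ≤ R') (β : ℝ) (J : Sys d) (p : Site d → ℝ)
    (hp : ∀ (x : Site d) (Λ : Finset (Site d)), x ∈ Λ → ∀ ω ω' : Site d → Bool,
      (∀ y ∈ ball x R, y ∉ Λ → ω y = ω' y) →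
      |gE β J Λ ω (ind x) - gE β J Λ ω' (ind x)| ≤ p x)
    (A : Finset (Site d)) (f : (Site d → Bool) → ℝ) (hf : Unit01 f) (hfA : LocalOn A f) :
    ∀ (m : ℕ) (U : Finset (Site d)), U.card = m → ∀ (D : Set (Site d)), (∀ y ∈ D, y ∉ U) →
      (∀ a ∈ A, ∀ y ∈ D, R' + 1 ≤ dist1 a y) → ∀ ω ω' : Site d → Bool,
      (∀ y, y ∉ D → y ∉ U → ω y = ω' y) →
      ENNReal.ofReal |gE β J U ω f - gE β J U ω' f| ≤
        S R' A (fun x => ENNReal.ofReal (p x)) U D := by
  classical
  intro m
  induction m with
  | zero =>
    intro U hU D hD hA ω ω' hω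
    have hno : ¬ ∃ x ∈ U, (∀ y ∈ D, R' + 1 ≤ dist1 x y) ∧ ∃ y ∈ D, dist1 x y = R' + 1 := by
      rw [Finset.card_eq_zero] at hU
      simp [hU]
    rw [case_two hb R' β J A f hfA U D hA ω ω' hω hno]
    simp
  | succ m ih =>
    intro U hU D hD hA ω ω' hω
    by_cases hno : ∃ x ∈ U, (∀ y ∈ D, R' + 1 ≤ dist1 x y) ∧ ∃ y ∈ D, dist1 x y = R' + 1
    · obtain ⟨x, hx, hxD, hxD'⟩ := hno
      set P : Site d → ℝ≥0∞ := fun x => ENNReal.ofReal (p x) with hP
      have hcard : (U.erase x).card = m := by
        rw [Finset.card_erase_of_mem hx, hU]; rfl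
      obtain ⟨b1, -, -, -, b5, -, -⟩ := hb d β J U ω
      obtain ⟨b1', -, -, -, b5', -, -⟩ := hb d β J U ω'
      have hind : Unit01 (ind (d := d) x) := by
        intro σ
        unfold ind
        split_ifs <;> norm_num
      set a := gE β J U ω (ind x) with ha
      set a' := gE β J U ω' (ind x) with ha'
      have ha01 : 0 ≤ a ∧ a ≤ 1 := b1 _ hind
      have ha01' : 0 ≤ a' ∧ a' ≤ 1 := b1' _ hind
      have hq : |a - a'| ≤ p x := by
        refine hp x U hx ω ω' fun y hy hyU => hω y (fun hyD => ?_) hyU
        have h1 := mem_ball_dist hy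
        have h2 := hxD y hyD
        omega
      rw [b5 x hx f, b5' x hx f]
      set F1 := gE β J (U.erase x) (Function.update ω x true) f
      set F2 := gE β J (U.erase x) (Function.update ω x false) f
      set G1 := gE β J (U.erase x) (Function.update ω' x true) f
      set G2 := gE β J (U.erase x) (Function.update ω' x false) f
      have hDU : ∀ y ∈ D, y ∉ U.erase x := fun y hy h => hD y hy (Finset.mem_of_mem_erase h)
      have hsame : ∀ s : Bool, ENNReal.ofReal |gE β J (U.erase x) (Function.update ω x s) f -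
          gE β J (U.erase x) (Function.update ω' x s) f| ≤ S R' A P (U.erase x) D := by
        intro s
        refine ih (U.erase x) hcard D hDU hA _ _ fun y hyD hyU => ?_
        by_cases hyx : y = x
        · subst hyx; simp
        · rw [Function.update_of_ne hyx, Function.update_of_ne hyx]
          exact hω y hyD fun h => hyU (Finset.mem_erase.2 ⟨hyx, h⟩)
      have hdiff : ∀ s s' : Bool, ENNReal.ofReal |gE β J (U.erase x) (Function.update ω x s) f -
          gE β J (U.erase x) (Function.update ω' x s') f| ≤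
            S R' A P (U.erase x) D + Tx R' A P U D x := by
        intro s s'
        by_cases hnear : ∃ a ∈ A, dist1 a x ≤ R'
        · refine le_trans ?_ (le_trans (one_le_Tx R' A P U D x hx hxD hxD' hnear) le_add_self)
          rw [← ENNReal.ofReal_one]
          apply ENNReal.ofReal_le_ofReal
          obtain ⟨c1, -⟩ := hb d β J (U.erase x) (Function.update ω x s)
          obtain ⟨c1', -⟩ := hb d β J (U.erase x) (Function.update ω' x s')
          have h1 := c1 f hf
          have h2 := c1' f hf
          rw [abs_le]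
          constructor <;> linarith [h1.1, h1.2, h2.1, h2.2]
        · push Not at hnear
          refine le_trans ?_ (S_insert R' A P U D x hx hxD hxD')
          refine ih (U.erase x) hcard (insert x D) ?_ ?_ _ _ ?_
          · intro y hy
            rcases hy with hy | hy
            · rw [hy]; exact Finset.notMem_erase x U
            · exact hDU y hy
          · intro a ha y hy
            rcases hy with hy | hy
            · rw [hy]; exact hnear a ha
            · exact hA a ha y hy
          · intro y hyD hyU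
            have hyx : y ≠ x := fun h => hyD (by rw [h]; exact Set.mem_insert _ _)
            rw [Function.update_of_ne hyx, Function.update_of_ne hyx]
            exact hω y (fun h => hyD (Set.mem_insert_of_mem _ h))
              fun h => hyU (Finset.mem_erase.2 ⟨hyx, h⟩)
      obtain ⟨b, c, hb0, hc0, hbc, hmix⟩ := mix a a' F1 F2 G1 G2 ha01 ha01'
      have hq0 : 0 ≤ |a - a'| := abs_nonneg _
      calc ENNReal.ofReal |(a * F1 + (1 - a) * F2) - (a' * G1 + (1 - a') * G2)|
          ≤ ENNReal.ofReal (b * |F1 - G1| + c * |F2 - G2| +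
              |a - a'| * max |F1 - G2| |F2 - G1|) := ENNReal.ofReal_le_ofReal hmix
        _ = ENNReal.ofReal b * ENNReal.ofReal |F1 - G1| + ENNReal.ofReal c * ENNReal.ofReal |F2 - G2| +
              ENNReal.ofReal |a - a'| * max (ENNReal.ofReal |F1 - G2|) (ENNReal.ofReal |F2 - G1|) := by
            rw [ENNReal.ofReal_add (by positivity) (by positivity),
              ENNReal.ofReal_add (by positivity) (by positivity), ENNReal.ofReal_mul hb0,
              ENNReal.ofReal_mul hc0, ENNReal.ofReal_mul hq0]
            congr 2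
            exact (ENNReal.ofReal_mono.map_max)
        _ ≤ ENNReal.ofReal b * S R' A P (U.erase x) D + ENNReal.ofReal c * S R' A P (U.erase x) D +
              ENNReal.ofReal |a - a'| * (S R' A P (U.erase x) D + Tx R' A P U D x) := by
            refine add_le_add (add_le_add ?_ ?_) ?_
            · exact mul_le_mul_right (hsame true) _
            · exact mul_le_mul_right (hsame false) _
            · exact mul_le_mul_right (max_le (hdiff true false) (hdiff false true)) _
        _ = (ENNReal.ofReal b + ENNReal.ofReal c + ENNReal.ofReal |a - a'|) *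
              S R' A P (U.erase x) D + ENNReal.ofReal |a - a'| * Tx R' A P U D x := by ring
        _ = S R' A P (U.erase x) D + ENNReal.ofReal |a - a'| * Tx R' A P U D x := by
            rw [← ENNReal.ofReal_add hb0 hc0, ← ENNReal.ofReal_add (by positivity) hq0, hbc,
              ENNReal.ofReal_one, one_mul]
        _ ≤ S R' A P (U.erase x) D + P x * Tx R' A P U D x := by
            refine add_le_add le_rfl (mul_le_mul_left (ENNReal.ofReal_le_ofReal hq) _)
        _ ≤ S R' A P U D := S_split R' A P U D x
    · rw [case_two hb R' β J A f hfA U D hA ω ω' hω hno]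
      simp

/-- the head of a chain with `m` sites is at distance less than `m (R'+1)` from `A` -/
theorem chain_dist (R' : ℕ) (A : Finset (Site d)) : ∀ (l : List (Site d)), IsCh R' A l →
    ∀ x0 ∈ l.head?, ∃ a ∈ A, dist1 a x0 + 1 ≤ l.length * (R' + 1) := by
  intro l
  induction l with
  | nil => intro h; exact absurd h (by simp [IsCh])
  | cons x l ih =>
    intro h x0 hx0
    simp only [List.head?_cons, Option.mem_def, Option.some.injEq] at hx0
    subst hx0
    cases l with
    | nil =>
      obtain ⟨a, ha, h1⟩ := h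
      exact ⟨a, ha, by simp; omega⟩
    | cons y l =>
      obtain ⟨h1, -, h3⟩ := h
      obtain ⟨a, ha, h4⟩ := ih h3 y (by simp)
      refine ⟨a, ha, ?_⟩
      have h5 := dist_tri a y x
      rw [dist_comm y x] at h5
      simp only [List.length_cons] at h4 ⊢
      nlinarith

end ExplAux

open ExplAux in
theorem t_EXPL (hb : St_BASIC) : St_EXPL := by
  classical
  intro d R R' hR β J p hp0 hp A f hf hfA Λ n hA ω ω'
  have h1 := claim hb R R' hR β J p hp A f hf hfA Λ.card Λ rfl {y | y ∉ Λ} (fun y hy => hy)
    (fun a ha y hy => by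
      have := hA a ha y hy
      nlinarith [Nat.zero_le n, Nat.zero_le R']) ω ω'
    (fun y h1 h2 => absurd h2 h1)
  refine h1.trans ?_
  unfold S chSum
  refine ENNReal.tsum_le_tsum fun l => ?_
  by_cases hc : Cnt R' A Λ {y | y ∉ Λ} l
  · rw [if_pos hc]
    have h2 : IsCh R' A l ∧ n ≤ l.length := by
      refine ⟨hc.1, ?_⟩
      obtain ⟨h3, -, -, x0, hx0, y, hy, hxy⟩ := hc
      obtain ⟨a, ha, h4⟩ := chain_dist R' A l h3 x0 hx0
      have h5 := hA a ha y hy
      have h6 := dist_tri a x0 y
      have h7 : (n + 1) * (R' + 1) < (l.length + 1) * (R' + 1) := by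
        have : (l.length + 1) * (R' + 1) = l.length * (R' + 1) + (R' + 1) := by ring
        omega
      have h8 := Nat.lt_of_mul_lt_mul_right h7
      omega
    rw [if_pos h2]
  · rw [if_neg hc]
    exact zero_le

end Pool.Agent.Q220.EAH
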