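import Pool.Agent.Q220.EAH.St

set_option autoImplicit false

open MeasureTheory

namespace Pool.Agent.Q220.EAH

open Pool.H47EA

theorem meas_bond {d : ℕ} (J : Sys d) (e : Sym2 (Site d)) :
    Measurable (fun σ : Site d → Bool => bond J σ e) := by
  induction e using Sym2.ind with
  | _ x y =>
    show Measurable (fun σ : Site d → Bool => Jc J x y * sg (σ x) * sg (σ y))
    have h1 : Measurable (fun σ : Site d → Bool => sg (σ x)) :=
      (measurable_of_countable sg).comp (measurable_pi_apply x)
    have h2 : Measurable (fun σ : Site d → Bool => sg (σ y)) :=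
      (measurable_of_countable sg).comp (measurable_pi_apply y)
    exact (measurable_const.mul h1).mul h2

theorem meas_ham {d : ℕ} (J : Sys d) (Λ : Finset (Site d)) :
    Measurable (fun σ : Site d → Bool => ham J Λ σ) := by
  unfold ham hamE
  refine (Finset.measurable_sum _ fun e _ => meas_bond J e).add
    (Finset.measurable_sum _ fun x _ => measurable_const.mul ?_)
  exact (measurable_of_countable sg).comp (measurable_pi_apply x)

theorem meas_glue {d : ℕ} (Λ : Finset (Site d)) (η : Λ → Bool) :
    Measurable (fun ω : Site d → Bool => glue Λ η ω) := by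
  rw [measurable_pi_iff]
  intro x
  unfold glue
  by_cases h : x ∈ Λ
  · simp only [h, dif_pos]; exact measurable_const
  · simp only [h, dif_neg, not_false_eq_true]; exact measurable_pi_apply x

theorem meas_gE {d : ℕ} (β : ℝ) (J : Sys d) (Λ : Finset (Site d))
    (f : (Site d → Bool) → ℝ) (hf : Measurable f) :
    Measurable (fun ω : Site d → Bool => gE β J Λ ω f) := by
  unfold gE Zp
  have h1 : ∀ η : Λ → Bool, Measurable fun ω : Site d → Bool =>
      Real.exp (β * ham J Λ (glue Λ η ω)) := fun η =>
    Real.measurable_exp.comp (measurable_const.mul ((meas_ham J Λ).comp (meas_glue Λ η)))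
  apply Measurable.div
  · exact Finset.measurable_sum _ fun η _ => (h1 η).mul (hf.comp (meas_glue Λ η))
  · exact Finset.measurable_sum _ fun η _ => h1 η

theorem gE_indicator_mem {d : ℕ} (β : ℝ) (J : Sys d) (Λ : Finset (Site d))
    (ω : Site d → Bool) (f : (Site d → Bool) → ℝ) (hf : Unit01 f) :
    0 ≤ gE β J Λ ω f ∧ gE β J Λ ω f ≤ 1 := by
  have hZ : 0 < Zp β J Λ ω := by
    unfold Zp
    exact Finset.sum_pos (fun η _ => Real.exp_pos _) Finset.univ_nonempty
  unfold gE
  constructor
  · apply div_nonneg _ hZ.le
    exact Finset.sum_nonneg fun η _ => mul_nonneg (Real.exp_pos _).le (hf _).1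
  · rw [div_le_one hZ]
    unfold Zp
    exact Finset.sum_le_sum fun η _ => mul_le_of_le_one_right (Real.exp_pos _).le (hf _).2

theorem t_GIBBSU : St_GIBBSU := by
  intro d β J hF π π' hπ hπ'
  have := hπ.1
  have := hπ'.1
  refine MeasureTheory.ext_of_generate_finite (measurableCylinders fun _ : Site d => Bool)
    generateFrom_measurableCylinders.symm isPiSystem_measurableCylinders ?_ (by simp)
  intro C hC
  obtain ⟨s, S, hS, rfl⟩ := (mem_measurableCylinders C).1 hC
  set C : Set (Site d → Bool) := cylinder (α := fun _ : Site d => Bool) s S with hCdef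
  have hCm : MeasurableSet C := MeasurableSet.cylinder s hS
  set f : (Site d → Bool) → ℝ := C.indicator fun _ => (1 : ℝ) with hf
  have hfm : Measurable f := measurable_const.indicator hCm
  have hf01 : Unit01 f := by
    intro σ
    by_cases h : σ ∈ C <;> simp [hf, h]
  have hfl : LocalOn s f := by
    intro σ σ' h
    have : σ ∈ C ↔ σ' ∈ C := by
      rw [hCdef, mem_cylinder, mem_cylinder]
      have : s.restrict σ = s.restrict σ' := by
        funext x; exact h x.1 x.2
      rw [this]
    by_cases h1 : σ ∈ C
    · simp [hf, h1, this.1 h1]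
    · have h2 : σ' ∉ C := fun h => h1 (this.2 h)
      simp [hf, h1, h2]
  -- comparison of one Gibbs state with a fixed boundary condition
  have key : ∀ (ρ : Measure (Site d → Bool)), IsGibbs β J ρ → ∀ (a b : Site d) (δ : ℝ),
      0 < δ → (∀ ω ω' : Site d → Bool,
        |gE β J (Finset.Icc a b) ω f - gE β J (Finset.Icc a b) ω' f| ≤ δ) →
      |(ρ C).toReal - gE β J (Finset.Icc a b) (fun _ => true) f| ≤ δ := by
    intro ρ hρ a b δ hδ hb
    have := hρ.1
    rw [hρ.2 a b C hCm]
    have hint : Integrable (fun ω => gE β J (Finset.Icc a b) ω f) ρ := by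
      refine Integrable.of_bound (meas_gE β J _ f hfm).aestronglyMeasurable 1 ?_
      refine Filter.Eventually.of_forall fun ω => ?_
      have := gE_indicator_mem β J (Finset.Icc a b) ω f hf01
      rw [Real.norm_eq_abs, abs_of_nonneg this.1]
      exact this.2
    have e : (∫ ω, gE β J (Finset.Icc a b) ω f ∂ρ) - gE β J (Finset.Icc a b) (fun _ => true) f
        = ∫ ω, (gE β J (Finset.Icc a b) ω f
            - gE β J (Finset.Icc a b) (fun _ => true) f) ∂ρ := by
      rw [integral_sub hint (integrable_const _)]
      simp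
    rw [e]
    have := norm_integral_le_of_norm_le_const (μ := ρ)
      (f := fun ω => gE β J (Finset.Icc a b) ω f - gE β J (Finset.Icc a b) (fun _ => true) f)
      (C := δ) (Filter.Eventually.of_forall fun ω => by
        rw [Real.norm_eq_abs]; exact hb ω _)
    simpa using this
  have hfin : ∀ δ : ℝ, 0 < δ → |(π C).toReal - (π' C).toReal| ≤ 2 * δ := by
    intro δ hδ
    obtain ⟨Λ₀, hΛ⟩ := hF s δ hδ
    obtain ⟨b, hb⟩ := Λ₀.bddAbove
    obtain ⟨a, ha⟩ := Λ₀.bddBelow
    have hsub : Λ₀ ⊆ Finset.Icc a b := by
      intro x hx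
      rw [Finset.mem_Icc]
      exact ⟨ha hx, hb hx⟩
    have hh := hΛ (Finset.Icc a b) hsub f hf01 hfl
    have h1 := key π hπ a b δ hδ hh
    have h2 := key π' hπ' a b δ hδ hh
    rw [abs_le] at h1 h2 ⊢
    constructor <;> linarith [h1.1, h1.2, h2.1, h2.2]
  have heq : (π C).toReal = (π' C).toReal := by
    by_contra hne
    have hpos : 0 < |(π C).toReal - (π' C).toReal| := abs_pos.2 (sub_ne_zero.2 hne)
    have := hfin (|(π C).toReal - (π' C).toReal| / 4) (by positivity)
    linarith
  exact (ENNReal.toReal_eq_toReal_iff' (measure_ne_top _ _) (measure_ne_top _ _)).1 heq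

end Pool.Agent.Q220.EAH
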