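import Pool.Agent.Q220.EAH.St
import Pool.Agent.H47R2.EA.GOOD

/-! The ball is good with overwhelming probability, for arbitrary magnitudes. -/

set_option autoImplicit false

open MeasureTheory
open scoped ENNReal

namespace Pool.Agent.Q220.EAH

open Pool.H47EA (Site Coupling lat dist1 nbr ball edgesOf glue sg couplingLaw)

open Pool.H47EA.GoodAux in
theorem good_bound (hc : Pool.H47EA.St_COMB) (hk : Pool.H47EA.St_KR) (ht : Pool.H47EA.St_TRACE)
    (hs : Pool.H47EA.St_SIGN) :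
    ∃ C : ℝ, 0 < C ∧ ∀ (d : ℕ) (x : Site d) (R k : ℕ), 1 ≤ d → 1 ≤ k → 2 * d + k + 1 ≤ 2 * k →
      ∀ T : ℝ, 0 < T → ∀ (ρ : Sym2 (Site d) → ℝ) (h : Site d → ℝ) (h0 : ∀ e, 0 ≤ ρ e)
        (h1 : ∀ e, ρ e ≤ 1),
      couplingLaw d {J | ¬ Good ⟨J, ρ, h, h0, h1⟩ x R T} ≤
        ENNReal.ofReal (2 * ((ball x R).card : ℝ) * (C * k) ^ k * Real.exp (2 * k) / T ^ (2 * k)) := by
  obtain ⟨C, hC, hk⟩ := hk
  refine ⟨C, hC, ?_⟩
  intro d x R k _ hk1 hdk T hT ρ hf hρ0 hρ1
  have h1 := half_bound hc hk ht hs (fun y z : Site d => ρ s(y, z))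
    (fun y z _ => ⟨hρ0 _, (hρ1 _).trans (Real.one_le_exp zero_le_one)⟩) x R k hk1 hdk hT
  have h2 := half_bound hc hk ht hs
    (fun y z : Site d => Real.exp ((dist1 x z : ℝ) - (dist1 x y : ℝ)) * ρ s(y, z))
    (fun y z h => ⟨mul_nonneg (Real.exp_pos _).le (hρ0 _), by
      have h6 : Real.exp ((dist1 x z : ℝ) - (dist1 x y : ℝ)) ≤ Real.exp 1 := by
        apply Real.exp_le_exp.2
        have h3 := dist1_triangle x y z
        have h4 : dist1 y z = 1 := h
        have h5 : (dist1 x z : ℝ) ≤ dist1 x y + 1 := by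
          rw [h4] at h3
          exact_mod_cast h3
        linarith
      calc Real.exp ((dist1 x z : ℝ) - (dist1 x y : ℝ)) * ρ s(y, z) ≤
          Real.exp ((dist1 x z : ℝ) - (dist1 x y : ℝ)) * 1 :=
            mul_le_mul_of_nonneg_left (hρ1 _) (Real.exp_pos _).le
        _ ≤ _ := by rw [mul_one]; exact h6⟩) x R k hk1 hdk hT
  set M := ((ball x R).card : ℝ) * (C * k) ^ k * Real.exp (2 * k) / T ^ (2 * k) with hM
  have hM0 : 0 ≤ M := by positivity
  calc couplingLaw d {J | ¬ Good ⟨J, ρ, hf, hρ0, hρ1⟩ x R T}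
      ≤ couplingLaw d ({J | ¬ ∀ u v : Site d → ℝ,
        |∑ y ∈ ball x R, ∑ z ∈ ball x R, u y * (ρ s(y, z) * Pool.H47EA.Jc J y z) * v z| ≤
        T * √(∑ y ∈ ball x R, u y ^ 2) * √(∑ y ∈ ball x R, v y ^ 2)} ∪
        {J | ¬ ∀ u v : Site d → ℝ,
        |∑ y ∈ ball x R, ∑ z ∈ ball x R, u y *
          (Real.exp ((dist1 x z : ℝ) - (dist1 x y : ℝ)) * ρ s(y, z) * Pool.H47EA.Jc J y z) * v z| ≤
        T * √(∑ y ∈ ball x R, u y ^ 2) * √(∑ y ∈ ball x R, v y ^ 2)}) := by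
        apply measure_mono
        intro J hJ
        by_contra h
        rw [Set.mem_union, not_or] at h
        apply hJ
        refine ⟨not_not.1 h.1, fun u v => ?_⟩
        have := not_not.1 h.2 u v
        simp only [Jc]
        simpa only [mul_assoc] using this
    _ ≤ _ := measure_union_le _ _
    _ ≤ ENNReal.ofReal M + ENNReal.ofReal M := add_le_add h1 h2
    _ = ENNReal.ofReal (M + M) := (ENNReal.ofReal_add hM0 hM0).symm
    _ = _ := by
        congr 1
        rw [hM]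
        ring

end Pool.Agent.Q220.EAH
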