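import Pool.Agent.H47R2.EA.FINAL
import Pool.Agent.H47R2.EA.BALL
import Pool.Agent.H47R2.EA.COMB
import Pool.Agent.H47R2.EA.COV1
import Pool.Agent.H47R2.EA.COV2
import Pool.Agent.H47R2.EA.DIFF
import Pool.Agent.H47R2.EA.ISING
import Pool.Agent.H47R2.EA.KHIN
import Pool.Agent.H47R2.EA.KR
import Pool.Agent.H47R2.EA.NET
import Pool.Agent.H47R2.EA.SIGN
import Pool.Agent.H47R2.EA.TRACE
import Pool.Agent.Q220.EAH.BASIC
import Pool.Agent.Q220.EAH.REDUCE
import Pool.Agent.Q220.EAH.INF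
import Pool.Agent.Q220.EAH.EXPL
import Pool.Agent.Q220.EAH.GIBBSU
import Pool.Agent.Q220.EAH.GIBBSE
import Pool.Agent.Q220.EAH.Good
import Pool.Agent.Q220.EA.Chain

/-! Exponential decay of the influence of the boundary condition and uniqueness, for arbitrary
magnitudes and fields. -/

set_option autoImplicit false

open MeasureTheory Filter
open scoped ENNReal Topology

namespace Pool.Agent.Q220.EAH

open Pool.H47EA


theorem good_local {d : ℕ} (x : Site d) (R : ℕ) (T : ℝ) (J J' : Sys d) (hρ : J.ρ = J'.ρ)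
    (h : ∀ e : (lat d).edgeSet, (∀ v ∈ e.1, v ∈ ball x R) → J.s e = J'.s e) (hG : Good J x R T) :
    Good J' x R T := by
  have hJ : ∀ y ∈ ball x R, ∀ z ∈ ball x R, Jc J' y z = Jc J y z := by
    intro y hy z hz
    unfold Jc
    rw [hρ]
    congr 1
    unfold Pool.H47EA.Jc
    by_cases hadj : (lat d).Adj y z
    · simp only [hadj, dif_pos]
      rw [h ⟨s(y, z), hadj⟩]
      intro v hv
      have : v ∈ s(y, z) := hv
      rw [Sym2.mem_iff] at this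
      rcases this with rfl | rfl
      · exact hy
      · exact hz
    · simp [hadj]
  refine ⟨fun u v => ?_, fun u v => ?_⟩
  · have := hG.1 u v
    rwa [Finset.sum_congr rfl fun y hy => Finset.sum_congr rfl fun z hz => by
      rw [hJ y hy z hz]]
  · have := hG.2 u v
    rwa [Finset.sum_congr rfl fun y hy => Finset.sum_congr rfl fun z hz => by
      rw [hJ y hy z hz]]

open Classical in
/-- **Exponential decay of the influence of the boundary condition**, uniformly in `β ≤ c/√d` and in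
the field, for all signs, with a random constant of finite mean. -/
theorem rate_of (hb : St_BASIC) (hi : St_INF) (hx : St_EXPL)
    (hg : ∃ C : ℝ, 0 < C ∧ ∀ (d : ℕ) (x : Site d) (R k : ℕ), 1 ≤ d → 1 ≤ k → 2 * d + k + 1 ≤ 2 * k →
      ∀ T : ℝ, 0 < T → ∀ (ρ : Sym2 (Site d) → ℝ) (h : Site d → ℝ) (h0 : ∀ e, 0 ≤ ρ e)
        (h1 : ∀ e, ρ e ≤ 1),
      couplingLaw d {J | ¬ Good ⟨J, ρ, h, h0, h1⟩ x R T} ≤
        ENNReal.ofReal (2 * ((ball x R).card : ℝ) * (C * k) ^ k * Real.exp (2 * k) / T ^ (2 * k)))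
    (hbl : St_BALL) :
    ∃ c : ℝ, 0 < c ∧ ∀ d : ℕ, 1 ≤ d → ∀ (ρ : Sym2 (Site d) → ℝ) (hρ0 : ∀ e, 0 ≤ ρ e)
      (hρ1 : ∀ e, ρ e ≤ 1), ∃ G : Finset (Site d) → Coupling d → ℝ≥0∞,
      (∀ A, Measurable (G A)) ∧ (∀ A, ∫⁻ J, G A J ∂(couplingLaw d) ≤ 4 * A.card) ∧
      ∀ (J : Coupling d) (h : Site d → ℝ) (β : ℝ), 0 < β → β ≤ c / √(d : ℝ) →
        ∀ (A : Finset (Site d)) (n : ℕ) (Λ : Finset (Site d)) (f : (Site d → Bool) → ℝ),
          Unit01 f → LocalOn A f →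
          (∀ a ∈ A, ∀ y, y ∉ Λ → (n + 1) * (2 * (16 * d) + 1) ≤ dist1 a y) →
          ∀ ω ω' : Site d → Bool,
            ENNReal.ofReal |gE β ⟨J, ρ, h, hρ0, hρ1⟩ Λ ω f - gE β ⟨J, ρ, h, hρ0, hρ1⟩ Λ ω' f| ≤
              (2 / 3 : ℝ≥0∞) ^ n * G A J := by

  obtain ⟨C, hC, hgood⟩ := hg
  set C' : ℝ := max C 1 with hC'
  have hC'1 : 1 ≤ C' := le_max_right _ _
  have hCC' : C ≤ C' := le_max_left _ _
  set τ : ℝ := √(8 * C' * Real.exp 4) with hτ
  have hτ2 : τ ^ 2 = 8 * C' * Real.exp 4 := Real.sq_sqrt (by positivity)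
  have hτ1 : 1 ≤ τ := by
    rw [hτ, Real.one_le_sqrt]
    have : (1 : ℝ) ≤ Real.exp 4 := Real.one_le_exp (by norm_num)
    nlinarith
  have hτ0 : 0 < τ := by linarith
  refine ⟨1 / (4 * τ), by positivity, fun d hd ρ hρ0 hρ1 => ?_⟩
  have hd' : (1 : ℝ) ≤ d := by exact_mod_cast hd
  have hsd : 1 ≤ √(d : ℝ) := by rw [Real.one_le_sqrt]; exact hd'
  have hsd0 : 0 < √(d : ℝ) := by linarith
  have hsd2 : √(d : ℝ) ^ 2 = d := Real.sq_sqrt (by positivity)
  set R : ℕ := 16 * d with hR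
  set T : ℝ := τ * √(d : ℝ) with hT
  have hT0 : 0 < T := by positivity
  set εr : ℝ := Real.exp (-(16 * d : ℝ)) * √(d : ℝ) * √((88 : ℝ) ^ d) with hεr
  have hεr0 : 0 ≤ εr := by positivity
  set br : ℝ := 2 * 88 ^ d * Real.exp (-(16 * d : ℝ)) with hbr
  -- bad events
  set Bad : Site d → Set (Coupling d) := fun x => {J | ¬ Good ⟨J, ρ, 0, hρ0, hρ1⟩ x R T} with hBad
  have hPbad : ∀ x, couplingLaw d (Bad x) ≤ ENNReal.ofReal br := by
    intro x
    refine (hgood d x R (8 * d) hd (by omega) (by omega) T hT0 ρ 0 hρ0 hρ1).trans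
      (ENNReal.ofReal_le_ofReal ?_)
    have h88 := card_ball_16 hbl d x
    rw [← hR] at h88
    have hk : ((8 * d : ℕ) : ℝ) = 8 * d := by push_cast; ring
    have hT2 : T ^ (2 * (8 * d)) = (8 * C' * Real.exp 4 * d) ^ (8 * d) := by
      rw [pow_mul, hT, mul_pow, hτ2, hsd2]
    rw [hT2, hk]
    have hpos : 0 < (8 * C' * Real.exp 4 * d) ^ (8 * d) := by positivity
    have e1 : Real.exp (2 * (8 * d : ℝ)) = (Real.exp 2) ^ (8 * d) := by
      rw [← Real.exp_nat_mul]; push_cast; ring_nf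
    rw [e1, div_le_iff₀ hpos]
    have e2 : Real.exp (-(16 * d : ℝ)) * (Real.exp 2) ^ (8 * d) = 1 := by
      rw [← Real.exp_nat_mul, ← Real.exp_add]
      push_cast; ring_nf; simp
    have e3 : (8 * C' * Real.exp 4 * (d : ℝ)) = (C' * (8 * d)) * (Real.exp 2 * Real.exp 2) := by
      rw [← Real.exp_add]; norm_num; ring
    calc 2 * ((ball x R).card : ℝ) * (C * (8 * d)) ^ (8 * d) * Real.exp 2 ^ (8 * d)
        ≤ 2 * 88 ^ d * (C' * (8 * d)) ^ (8 * d) * Real.exp 2 ^ (8 * d) := by gcongr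
      _ = 2 * 88 ^ d * (Real.exp (-(16 * d : ℝ)) * (Real.exp 2) ^ (8 * d)) *
            ((C' * (8 * d)) ^ (8 * d) * Real.exp 2 ^ (8 * d)) := by rw [e2]; ring
      _ = br * (8 * C' * Real.exp 4 * (d : ℝ)) ^ (8 * d) := by
          rw [e3, mul_pow, mul_pow, hbr]; ring
  -- numerical inequality
  have hnum : (180 : ℝ) ^ d * (εr + br) ≤ 1 / 2 := by
    have hexp := exp16_pow d
    have hsq : √((88 : ℝ) ^ d) ≤ (10 : ℝ) ^ d := by
      rw [Real.sqrt_le_left (by positivity), ← pow_mul, mul_comm, pow_mul]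
      exact pow_le_pow_left₀ (by norm_num) (by norm_num) d
    have hs2 : √(d : ℝ) ≤ 2 ^ d := by
      rw [Real.sqrt_le_left (by positivity)]
      have h1 : (d : ℝ) ≤ 2 ^ d := by exact_mod_cast (Nat.lt_two_pow_self (n := d)).le
      have h2 : (1 : ℝ) ≤ 2 ^ d := one_le_pow₀ (by norm_num)
      nlinarith
    have h1 : (180 : ℝ) ^ d * εr ≤ (1 / 1000) ^ d := by
      calc (180 : ℝ) ^ d * εr ≤ 180 ^ d * ((1 / 7000000) ^ d * 2 ^ d * 10 ^ d) := by
            rw [hεr]; gcongr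
        _ = (180 * (1 / 7000000 * 2 * 10)) ^ d := by rw [mul_pow, mul_pow, mul_pow]
        _ ≤ (1 / 1000) ^ d := pow_le_pow_left₀ (by norm_num) (by norm_num) d
    have h2 : (180 : ℝ) ^ d * br ≤ 2 * (1 / 400) ^ d := by
      calc (180 : ℝ) ^ d * br ≤ 180 ^ d * (2 * 88 ^ d * (1 / 7000000) ^ d) := by
            rw [hbr]; gcongr
        _ = 2 * (180 * 88 * (1 / 7000000)) ^ d := by rw [mul_pow, mul_pow]; ring
        _ ≤ 2 * (1 / 400) ^ d := by
            gcongr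
            norm_num
    have h3 : ((1 : ℝ) / 1000) ^ d ≤ 1 / 1000 := by
      calc ((1 : ℝ) / 1000) ^ d ≤ (1 / 1000) ^ 1 :=
            pow_le_pow_of_le_one (by norm_num) (by norm_num) hd
        _ = _ := by norm_num
    have h4 : ((1 : ℝ) / 400) ^ d ≤ 1 / 400 := by
      calc ((1 : ℝ) / 400) ^ d ≤ (1 / 400) ^ 1 :=
            pow_le_pow_of_le_one (by norm_num) (by norm_num) hd
        _ = _ := by norm_num
    rw [mul_add]
    linarith
  have hchain := Pool.Agent.Q220.EA.mean_GG d R Bad (ENNReal.ofReal br) (ENNReal.ofReal εr) (180 ^ d)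
    (fun x J J' h => by
      constructor
      · intro hbad hG
        exact hbad (good_local x R T ⟨J', ρ, 0, hρ0, hρ1⟩ ⟨J, ρ, 0, hρ0, hρ1⟩ rfl (fun e he => (h e he).symm) hG)
      · intro hbad hG
        exact hbad (good_local x R T ⟨J, ρ, 0, hρ0, hρ1⟩ ⟨J', ρ, 0, hρ0, hρ1⟩ rfl h hG))
    hPbad (fun x => card_ball_33 hbl d hd x)
    (by
      rw [← ENNReal.ofReal_add hεr0 (by positivity)]
      have : ((180 ^ d : ℕ) : ℝ≥0∞) = ENNReal.ofReal ((180 : ℝ) ^ d) := by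
        rw [← ENNReal.ofReal_natCast]; push_cast; rfl
      rw [this, ← ENNReal.ofReal_mul (by positivity)]
      calc ENNReal.ofReal ((180 : ℝ) ^ d * (εr + br)) ≤ ENNReal.ofReal (1 / 2) :=
            ENNReal.ofReal_le_ofReal hnum
        _ = 2⁻¹ := by
            rw [one_div, ENNReal.ofReal_inv_of_pos (by norm_num)]; norm_num)
  refine ⟨fun A J => Pool.Agent.Q220.EA.GG (2 * R) A (chainP Bad (ENNReal.ofReal εr) J), fun A => (hchain A).1,
    fun A => (hchain A).2, fun J hh β hβ0 hβ A n Λ f hf hloc hfar ω ω' => ?_⟩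
  have hTβ : 4 * T * β ≤ 1 := by
    rw [hT]
    have : β * (4 * τ * √(d : ℝ)) ≤ 1 := by
      have h1 := mul_le_mul_of_nonneg_right hβ (show 0 ≤ 4 * τ * √(d : ℝ) by positivity)
      have h2 : 1 / (4 * τ) / √(d : ℝ) * (4 * τ * √(d : ℝ)) = 1 := by
        field_simp
      linarith
    linarith
  set p : Site d → ℝ := fun x => if J ∈ Bad x then 1 else εr with hp
  have hp0 : ∀ x, 0 ≤ p x := by
    intro x; simp only [hp]; split_ifs <;> first | exact zero_le_one | exact hεr0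
  have hpe : (fun x => ENNReal.ofReal (p x)) = chainP Bad (ENNReal.ofReal εr) J := by
    funext x; simp only [hp, chainP]; split_ifs <;> simp
  have hinf : ∀ (x : Site d) (Λ : Finset (Site d)), x ∈ Λ → ∀ ω ω' : Site d → Bool,
      (∀ y ∈ ball x R, y ∉ Λ → ω y = ω' y) →
      |gE β ⟨J, ρ, hh, hρ0, hρ1⟩ Λ ω (ind x) - gE β ⟨J, ρ, hh, hρ0, hρ1⟩ Λ ω' (ind x)| ≤ p x := by
    intro x Λ hxΛ ω ω' hω
    have hu01 : Unit01 (ind x) := by
      intro σ; unfold ind; split_ifs <;> norm_num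
    by_cases hbad : J ∈ Bad x
    · simp only [hp, hbad, if_true]
      have h1 := (hb d β ⟨J, ρ, hh, hρ0, hρ1⟩ Λ ω).1 _ hu01
      have h2 := (hb d β ⟨J, ρ, hh, hρ0, hρ1⟩ Λ ω').1 _ hu01
      rw [abs_le]; constructor <;> linarith [h1.1, h1.2, h2.1, h2.2]
    · simp only [hp, hbad, if_false]
      have hG : Good ⟨J, ρ, hh, hρ0, hρ1⟩ x R T := by
        by_contra hcon; exact hbad hcon
      refine (hi d ⟨J, ρ, hh, hρ0, hρ1⟩ x R T hT0 hG β hβ0 hTβ Λ hxΛ ω ω' hω).trans ?_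
      have h88 := card_ball_16 hbl d x
      rw [← hR] at h88
      have e1 : Real.exp (-(R : ℝ)) = Real.exp (-(16 * d : ℝ)) := by
        rw [hR]; push_cast; rfl
      rw [e1, hεr]
      have e2 : 4 * β * d ≤ √(d : ℝ) := by
        have hβd : β * √(d : ℝ) ≤ 1 / (4 * τ) := by
          rw [le_div_iff₀ hsd0] at hβ; exact hβ
        have h3 : 1 / (4 * τ) ≤ 1 / 4 := by
          apply one_div_le_one_div_of_le (by norm_num); linarith
        have h4 : β * √(d : ℝ) ≤ 1 / 4 := hβd.trans h3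
        calc 4 * β * d = 4 * (β * √(d : ℝ)) * √(d : ℝ) := by
              nth_rewrite 1 [← hsd2]; ring
          _ ≤ 4 * (1 / 4) * √(d : ℝ) := by gcongr
          _ = √(d : ℝ) := by ring
      gcongr
  have h := hx d R (2 * R) (by omega) β ⟨J, ρ, hh, hρ0, hρ1⟩ p hp0 hinf A f hf hloc Λ n hfar ω ω'
  rw [hpe] at h
  exact h.trans (Pool.Agent.Q220.EA.chSum_le _ _ _ _)


/-- **Exponential decay of the influence of the boundary condition.** -/
theorem rate :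
    ∃ c : ℝ, 0 < c ∧ ∀ d : ℕ, 1 ≤ d → ∀ (ρ : Sym2 (Site d) → ℝ) (hρ0 : ∀ e, 0 ≤ ρ e)
      (hρ1 : ∀ e, ρ e ≤ 1), ∃ G : Finset (Site d) → Coupling d → ℝ≥0∞,
      (∀ A, Measurable (G A)) ∧ (∀ A, ∫⁻ J, G A J ∂(couplingLaw d) ≤ 4 * A.card) ∧
      ∀ (J : Coupling d) (h : Site d → ℝ) (β : ℝ), 0 < β → β ≤ c / √(d : ℝ) →
        ∀ (A : Finset (Site d)) (n : ℕ) (Λ : Finset (Site d)) (f : (Site d → Bool) → ℝ),
          Unit01 f → LocalOn A f →
          (∀ a ∈ A, ∀ y, y ∉ Λ → (n + 1) * (2 * (16 * d) + 1) ≤ dist1 a y) →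
          ∀ ω ω' : Site d → Bool,
            ENNReal.ofReal |gE β ⟨J, ρ, h, hρ0, hρ1⟩ Λ ω f - gE β ⟨J, ρ, h, hρ0, hρ1⟩ Λ ω' f| ≤
              (2 / 3 : ℝ≥0∞) ^ n * G A J := by
  have hb : St_BASIC := t_BASIC
  have hbl : St_BALL := t_BALL
  have hi : St_ISING := t_ISING (t_COV2 t_COV1)
  have hinf : St_INF := t_INF hb hi t_DIFF t_REDUCE
  have hkr : St_KR := t_KR t_KHIN (t_NET hbl)
  have hg := good_bound t_COMB hkr t_TRACE t_SIGN
  exact rate_of hb hinf (t_EXPL hb) hg hbl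

/-- finiteness of all the random constants implies that boundary conditions are forgotten -/
theorem forget {d : ℕ} {β : ℝ} {J : Sys d} {R : ℕ} {G : Finset (Site d) → ℝ≥0∞}
    (hG : ∀ A, G A < ∞)
    (h : ∀ (A : Finset (Site d)) (n : ℕ) (Λ : Finset (Site d)) (f : (Site d → Bool) → ℝ),
          Unit01 f → LocalOn A f →
          (∀ a ∈ A, ∀ y, y ∉ Λ → (n + 1) * R ≤ dist1 a y) →
          ∀ ω ω' : Site d → Bool,
            ENNReal.ofReal |gE β J Λ ω f - gE β J Λ ω' f| ≤ (2 / 3 : ℝ≥0∞) ^ n * G A) :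
    Forget β J := by
  classical
  intro A δ hδ
  have h23 : (2 / 3 : ℝ≥0∞) < 1 := by
    rw [ENNReal.div_lt_iff (by simp) (by simp)]; norm_num
  have ht : Tendsto (fun n : ℕ => (2 / 3 : ℝ≥0∞) ^ n * G A) atTop (𝓝 0) := by
    have := ENNReal.Tendsto.mul_const (b := G A) (ENNReal.tendsto_pow_atTop_nhds_zero_of_lt_one h23)
      (Or.inr (hG A).ne)
    simpa using this
  obtain ⟨n, hn⟩ := ((ENNReal.tendsto_nhds_zero.mp ht) (ENNReal.ofReal δ) (by simpa using hδ)).exists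
  refine ⟨A.biUnion fun a => ball a ((n + 1) * R), fun Λ hΛ f hf hloc ω ω' => ?_⟩
  have hfar : ∀ a ∈ A, ∀ y, y ∉ Λ → (n + 1) * R ≤ dist1 a y := by
    intro a ha y hy
    by_contra hcon
    apply hy
    apply hΛ
    rw [Finset.mem_biUnion]
    exact ⟨a, ha, (Pool.H47EA.mem_ball_iff a y _).2 (by omega)⟩
  exact (ENNReal.ofReal_le_ofReal_iff hδ.le).1 ((h A n Λ f hf hloc hfar ω ω').trans hn)

/-- **Uniqueness for arbitrary magnitudes and all fields.** -/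
theorem unique :
    ∃ c : ℝ, 0 < c ∧ ∀ d : ℕ, 1 ≤ d → ∀ (ρ : Sym2 (Site d) → ℝ) (hρ0 : ∀ e, 0 ≤ ρ e)
      (hρ1 : ∀ e, ρ e ≤ 1), ∀ᵐ J ∂(couplingLaw d), ∀ (h : Site d → ℝ) (β : ℝ), 0 < β →
        β ≤ c / √(d : ℝ) →
        ∃! π : Measure (Site d → Bool), IsGibbs β ⟨J, ρ, h, hρ0, hρ1⟩ π := by
  obtain ⟨c, hc, hrate⟩ := rate
  refine ⟨c, hc, fun d hd ρ hρ0 hρ1 => ?_⟩
  obtain ⟨G, hGm, hGi, hG⟩ := hrate d hd ρ hρ0 hρ1
  have hfin : ∀ A, ∀ᵐ J ∂(couplingLaw d), G A J < ∞ := fun A =>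
    ae_lt_top (hGm A) (ne_top_of_le_ne_top (by finiteness) (hGi A))
  filter_upwards [ae_all_iff.2 hfin] with J hJ h β hβ0 hβ
  have hF : Forget β ⟨J, ρ, h, hρ0, hρ1⟩ := forget hJ (fun A => hG J h β hβ0 hβ A)
  obtain ⟨π, hπ⟩ := t_GIBBSE t_BASIC d β _ hF
  exact ⟨π, hπ, fun π' hπ' => t_GIBBSU d β _ hF π' π hπ' hπ⟩

end Pool.Agent.Q220.EAH
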