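import Pool.Agent.Q220.EAH.Defs
import Pool.Agent.H47R2.EA.St

/-! Statements of the building blocks for the model with magnitudes and fields. -/

set_option autoImplicit false

open MeasureTheory
open scoped ENNReal

namespace Pool.Agent.Q220.EAH

open Pool.H47EA

def St_BASIC : Prop :=
  ∀ (d : ℕ) (β : ℝ) (J : Sys d) (Λ : Finset (Site d)) (ω : Site d → Bool),
    (∀ f, Unit01 f → 0 ≤ gE β J Λ ω f ∧ gE β J Λ ω f ≤ 1) ∧
    (∀ c : ℝ, gE β J Λ ω (fun _ => c) = c) ∧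
    (∀ f f' : (Site d → Bool) → ℝ, (∀ η : Λ → Bool, f (glue Λ η ω) ≤ f' (glue Λ η ω)) →
      gE β J Λ ω f ≤ gE β J Λ ω f') ∧
    (∀ (f f' : (Site d → Bool) → ℝ) (c c' : ℝ),
      gE β J Λ ω (fun σ => c * f σ + c' * f' σ) = c * gE β J Λ ω f + c' * gE β J Λ ω f') ∧
    -- conditioning on the spin at `x`
    (∀ x ∈ Λ, ∀ f : (Site d → Bool) → ℝ,
      gE β J Λ ω f = gE β J Λ ω (ind x) * gE β J (Λ.erase x) (Function.update ω x true) f
        + (1 - gE β J Λ ω (ind x)) * gE β J (Λ.erase x) (Function.update ω x false) f) ∧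
    -- consistency
    (∀ Λ' ⊆ Λ, ∀ f : (Site d → Bool) → ℝ,
      gE β J Λ ω f = gE β J Λ ω (fun τ => gE β J Λ' τ f)) ∧
    -- locality
    (∀ (ω' : Site d → Bool) (f : (Site d → Bool) → ℝ),
      (∀ y, y ∉ Λ → (∃ x ∈ Λ, (lat d).Adj x y) → ω y = ω' y) →
      (∀ η : Λ → Bool, f (glue Λ η ω) = f (glue Λ η ω')) →
      gE β J Λ ω f = gE β J Λ ω' f)

/-- The finite-volume Edwards–Anderson measure as a finite Ising average. -/
def St_REDUCE : Prop :=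
  ∀ (d : ℕ) (β : ℝ) (J : Sys d) (Λ : Finset (Site d)) (ω : Site d → Bool)
    (f : (Site d → Bool) → ℝ),
    gE β J Λ ω f =
      av (U := {x // x ∈ Λ})
        (fun η => Real.exp ((∑ y, ∑ z, (β * Jc J y.1 z.1) * sg (η y) * sg (η z)) / 2))
        (fun y => β * ∑ z ∈ nbr y.1 \ Λ, Jc J y.1 z * sg (ω z) + β * J.h y.1)
        (fun η => f (glue Λ η ω))

/-- operator norm bounds for the signed adjacency matrix of `ball x R`, and for its conjugate by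
the weight `exp(-dist(x,·))`. -/
def Good {d : ℕ} (J : Sys d) (x : Site d) (R : ℕ) (T : ℝ) : Prop :=
  (∀ u v : Site d → ℝ, |∑ y ∈ ball x R, ∑ z ∈ ball x R, u y * Jc J y z * v z| ≤
      T * √(∑ y ∈ ball x R, u y ^ 2) * √(∑ y ∈ ball x R, v y ^ 2)) ∧
  (∀ u v : Site d → ℝ, |∑ y ∈ ball x R, ∑ z ∈ ball x R,
        u y * (Real.exp ((dist1 x z : ℝ) - (dist1 x y : ℝ)) * Jc J y z) * v z| ≤
      T * √(∑ y ∈ ball x R, u y ^ 2) * √(∑ y ∈ ball x R, v y ^ 2))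

def St_INF : Prop :=
  ∀ (d : ℕ) (J : Sys d) (x : Site d) (R : ℕ) (T : ℝ), 0 < T → Good J x R T →
    ∀ β : ℝ, 0 < β → 4 * T * β ≤ 1 →
    ∀ Λ : Finset (Site d), x ∈ Λ → ∀ ω ω' : Site d → Bool,
      (∀ y ∈ ball x R, y ∉ Λ → ω y = ω' y) →
      |gE β J Λ ω (ind x) - gE β J Λ ω' (ind x)| ≤
        Real.exp (-(R : ℝ)) * (4 * β * d) * √((ball x R).card : ℝ)

/-- The exploration inequality. -/
def St_EXPL : Prop :=
  ∀ (d : ℕ) (R R' : ℕ), R ≤ R' → ∀ (β : ℝ) (J : Sys d) (p : Site d → ℝ),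
    (∀ x, 0 ≤ p x) →
    (∀ (x : Site d) (Λ : Finset (Site d)), x ∈ Λ → ∀ ω ω' : Site d → Bool,
      (∀ y ∈ ball x R, y ∉ Λ → ω y = ω' y) →
      |gE β J Λ ω (ind x) - gE β J Λ ω' (ind x)| ≤ p x) →
    ∀ (A : Finset (Site d)) (f : (Site d → Bool) → ℝ), Unit01 f → LocalOn A f →
    ∀ (Λ : Finset (Site d)) (n : ℕ),
      (∀ a ∈ A, ∀ y, y ∉ Λ → (n + 1) * (R' + 1) ≤ dist1 a y) →
      ∀ ω ω' : Site d → Bool,
        ENNReal.ofReal |gE β J Λ ω f - gE β J Λ ω' f| ≤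
          chSum R' A (fun x => ENNReal.ofReal (p x)) n

def Forget {d : ℕ} (β : ℝ) (J : Sys d) : Prop :=
  ∀ (A : Finset (Site d)) (δ : ℝ), 0 < δ → ∃ Λ₀ : Finset (Site d), ∀ Λ : Finset (Site d),
    Λ₀ ⊆ Λ → ∀ f, Unit01 f → LocalOn A f → ∀ ω ω' : Site d → Bool,
      |gE β J Λ ω f - gE β J Λ ω' f| ≤ δ

def St_GIBBSU : Prop :=
  ∀ (d : ℕ) (β : ℝ) (J : Sys d), Forget β J →
    ∀ π π' : Measure (Site d → Bool), IsGibbs β J π → IsGibbs β J π' → π = π'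

def St_GIBBSE : Prop :=
  ∀ (d : ℕ) (β : ℝ) (J : Sys d), Forget β J → ∃ π : Measure (Site d → Bool), IsGibbs β J π


end Pool.Agent.Q220.EAH
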